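import Pool.Agent.Helper68.LM2.St

/-!
# Project LM2, module EA: the dyadic conditional expectation on the line
-/

set_option autoImplicit false

open MeasureTheory Set Filter Topology
open scoped ENNReal

namespace Pool.Agent.Helper62.LM2

open Pool.Agent.Helper68.LM2 Pool.Agent.Helper68.LM

theorem pow_pos2 (m : ℤ) : (0 : ℝ) < (2 : ℝ) ^ m := by positivity

theorem mem_cell {m : ℤ} {b y : ℝ} : y ∈ cell m b ↔ ⌊y / (2 : ℝ) ^ m⌋ = ⌊b / (2 : ℝ) ^ m⌋ :=
  Iff.rfl

theorem cell_eq_Ico (m : ℤ) (b : ℝ) :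
    cell m b = Ico ((2 : ℝ) ^ m * ⌊b / (2 : ℝ) ^ m⌋) ((2 : ℝ) ^ m * (⌊b / (2 : ℝ) ^ m⌋ + 1)) := by
  have h2 := pow_pos2 m
  ext y
  rw [mem_cell, mem_Ico, Int.floor_eq_iff, le_div_iff₀ h2, div_lt_iff₀ h2]
  constructor
  · rintro ⟨h1, h3⟩
    constructor <;> nlinarith
  · rintro ⟨h1, h3⟩
    constructor <;> nlinarith

theorem cell_congr {m : ℤ} {b c : ℝ} (h : c ∈ cell m b) : cell m c = cell m b := by
  ext y
  rw [mem_cell, mem_cell, mem_cell.1 h]

theorem cell_meas (m : ℤ) (b : ℝ) : MeasurableSet (cell m b) := by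
  rw [cell_eq_Ico]
  exact measurableSet_Ico

theorem cell_self (m : ℤ) (b : ℝ) : b ∈ cell m b := rfl

theorem cell_vol (m : ℤ) (b : ℝ) : volume (cell m b) = ENNReal.ofReal ((2 : ℝ) ^ m) := by
  rw [cell_eq_Ico, Real.volume_Ico]
  congr 1
  ring

theorem cell_sub (m : ℤ) (b : ℝ) : cell m b ⊆ Icc (b - (2 : ℝ) ^ m) (b + (2 : ℝ) ^ m) := by
  intro y hy
  have h0 := cell_self m b
  rw [cell_eq_Ico] at hy h0
  obtain ⟨h1, h2⟩ := hy
  obtain ⟨h3, h4⟩ := h0
  constructor <;> nlinarith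

theorem cell_mono {m m' : ℤ} (h : m ≤ m') (b : ℝ) : cell m b ⊆ cell m' b := by
  intro y hy
  obtain ⟨j, rfl⟩ : ∃ j : ℕ, m' = m + j := ⟨(m' - m).toNat, by omega⟩
  rw [mem_cell] at hy ⊢
  have key : ∀ x : ℝ, ⌊x / (2 : ℝ) ^ (m + (j : ℤ))⌋ = ⌊x / (2 : ℝ) ^ m⌋ / ((2 ^ j : ℕ) : ℤ) := by
    intro x
    rw [← Int.floor_div_natCast]
    congr 1
    rw [zpow_add₀ (by norm_num), zpow_natCast, div_div]
    push_cast
    rfl
  rw [key, key, hy]

theorem E1_congr {m : ℤ} (h : ℝ → ℝ) {b c : ℝ} (hc : c ∈ cell m b) : E1 m h c = E1 m h b := by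
  unfold E1
  rw [cell_congr hc]

theorem B1_integrable {h : ℝ → ℝ} (hh : B1 h) : Integrable h := by
  obtain ⟨hm, K, hK, hK'⟩ := hh
  have h1 : IntegrableOn h (Icc (-K) K) := by
    refine Measure.integrableOn_of_bounded (M := K) ?_ hm.aestronglyMeasurable ?_
    · rw [Real.volume_Icc]
      exact ENNReal.ofReal_ne_top
    · exact Eventually.of_forall fun x => hK x
  refine (integrableOn_iff_integrable_of_support_subset ?_).1 h1
  intro x hx
  by_contra hxK
  apply hx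
  apply hK'
  rw [mem_Icc, not_and_or, not_le, not_le] at hxK
  rcases hxK with h2 | h2
  · exact lt_of_lt_of_le (by linarith) (neg_le_abs x)
  · exact lt_of_lt_of_le h2 (le_abs_self x)

theorem B1_K_nonneg {h : ℝ → ℝ} {K : ℝ} (hK : ∀ x, |h x| ≤ K) : 0 ≤ K :=
  le_trans (abs_nonneg _) (hK 0)

theorem E1_bound {m : ℤ} {h : ℝ → ℝ} {K : ℝ} (b : ℝ) (hK : ∀ y, |h y| ≤ K) : |E1 m h b| ≤ K := by
  have h2 := pow_pos2 m
  unfold E1
  rw [abs_mul, abs_of_pos (inv_pos.2 h2), inv_mul_le_iff₀ h2]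
  have h1 : ‖∫ y in cell m b, h y‖ ≤ K * (volume (cell m b)).toReal := by
    refine norm_setIntegral_le_of_norm_le_const ?_ fun x _ => hK x
    rw [cell_vol]
    exact ENNReal.ofReal_lt_top
  rw [cell_vol, ENNReal.toReal_ofReal h2.le, Real.norm_eq_abs] at h1
  linarith

theorem E1_meas (m : ℤ) (h : ℝ → ℝ) : Measurable (E1 m h) := by
  have h1 : E1 m h = (fun i : ℤ => ((2 : ℝ) ^ m)⁻¹ * ∫ y in {y : ℝ | ⌊y / (2 : ℝ) ^ m⌋ = i}, h y) ∘
      (fun b : ℝ => ⌊b / (2 : ℝ) ^ m⌋) := rfl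
  rw [h1]
  exact (measurable_from_top (f := fun i : ℤ =>
    ((2 : ℝ) ^ m)⁻¹ * ∫ y in {y : ℝ | ⌊y / (2 : ℝ) ^ m⌋ = i}, h y)).comp
    (Int.measurable_floor.comp (measurable_id.div_const _))

theorem E1_B1 (m : ℤ) {h : ℝ → ℝ} (hh : B1 h) : B1 (E1 m h) := by
  obtain ⟨hm, K, hK, hK'⟩ := hh
  have h2 := pow_pos2 m
  refine ⟨E1_meas m h, K + (2 : ℝ) ^ m, fun x => ?_, fun x hx => ?_⟩
  · exact le_trans (E1_bound x hK) (by linarith)
  · unfold E1
    rw [setIntegral_eq_zero_of_forall_eq_zero, mul_zero]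
    intro y hy
    apply hK'
    obtain ⟨h3, h4⟩ := cell_sub m x hy
    have h5 : |x - y| ≤ (2 : ℝ) ^ m := abs_le.2 ⟨by linarith, by linarith⟩
    have h6 : |x| ≤ |x - y| + |y| := by
      have := abs_add_le (x - y) y
      rwa [sub_add_cancel] at this
    linarith

theorem E1_add (m : ℤ) {h w : ℝ → ℝ} (b : ℝ) (hh : B1 h) (hw : B1 w) :
    E1 m (fun y => h y + w y) b = E1 m h b + E1 m w b := by
  unfold E1
  rw [integral_add (B1_integrable hh).integrableOn (B1_integrable hw).integrableOn, mul_add]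

theorem E1_smul (m : ℤ) (h : ℝ → ℝ) (c b : ℝ) : E1 m (fun y => c * h y) b = c * E1 m h b := by
  unfold E1
  rw [integral_const_mul]
  ring

theorem E1_mono (m : ℤ) {h w : ℝ → ℝ} (b : ℝ) (hh : B1 h) (hw : B1 w) (hle : ∀ y, h y ≤ w y) :
    E1 m h b ≤ E1 m w b := by
  have h2 := pow_pos2 m
  unfold E1
  refine mul_le_mul_of_nonneg_left ?_ (inv_pos.2 h2).le
  exact integral_mono (B1_integrable hh).integrableOn (B1_integrable hw).integrableOn hle

theorem E1_abs (m : ℤ) (h : ℝ → ℝ) (b : ℝ) : |E1 m h b| ≤ E1 m (fun y => |h y|) b := by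
  have h2 := pow_pos2 m
  unfold E1
  rw [abs_mul, abs_of_pos (inv_pos.2 h2)]
  exact mul_le_mul_of_nonneg_left (abs_integral_le_integral_abs) (inv_pos.2 h2).le

/-- the kernel set -/
def ker (m : ℤ) : Set (ℝ × ℝ) := {z | ⌊z.1 / (2 : ℝ) ^ m⌋ = ⌊z.2 / (2 : ℝ) ^ m⌋}

theorem ker_meas (m : ℤ) : MeasurableSet (ker m) :=
  measurableSet_eq_fun (Int.measurable_floor.comp (measurable_fst.div_const _))
    (Int.measurable_floor.comp (measurable_snd.div_const _))

theorem E1_selfadj (m : ℤ) {h w : ℝ → ℝ} (hh : B1 h) (hw : B1 w) :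
    ∫ y, E1 m h y * w y = ∫ y, h y * E1 m w y := by
  have hI : Integrable (fun z : ℝ × ℝ => (ker m).indicator (fun z => w z.1 * h z.2) z)
      (volume.prod volume) :=
    ((B1_integrable hw).mul_prod (B1_integrable hh)).indicator (ker_meas m)
  have h1 : ∀ y, E1 m h y * w y =
      ((2 : ℝ) ^ m)⁻¹ * ∫ x, (ker m).indicator (fun z => w z.1 * h z.2) (y, x) := by
    intro y
    unfold E1
    rw [mul_assoc]
    congr 1
    rw [← integral_indicator (cell_meas m y), ← integral_mul_const]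
    congr 1
    ext x
    by_cases hx : x ∈ cell m y
    · have hx' : (y, x) ∈ ker m := (mem_cell.1 hx).symm
      rw [indicator_of_mem hx, indicator_of_mem hx', mul_comm]
    · have hx' : (y, x) ∉ ker m := fun h' => hx (Eq.symm h')
      rw [indicator_of_notMem hx, indicator_of_notMem hx', zero_mul]
  have h3 : ∀ x, h x * E1 m w x =
      ((2 : ℝ) ^ m)⁻¹ * ∫ y, (ker m).indicator (fun z => w z.1 * h z.2) (y, x) := by
    intro x
    unfold E1
    rw [mul_left_comm]
    congr 1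
    rw [← integral_indicator (cell_meas m x), ← integral_const_mul]
    congr 1
    ext y
    by_cases hy : y ∈ cell m x
    · have hy' : (y, x) ∈ ker m := mem_cell.1 hy
      rw [indicator_of_mem hy, indicator_of_mem hy', mul_comm]
    · have hy' : (y, x) ∉ ker m := fun h' => hy h'
      rw [indicator_of_notMem hy, indicator_of_notMem hy', mul_zero]
  simp_rw [h1, h3]
  rw [integral_const_mul, integral_const_mul]
  congr 1
  exact integral_integral_swap (f := fun y x => (ker m).indicator (fun z => w z.1 * h z.2) (y, x)) hI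

theorem E1_const (m : ℤ) {w : ℝ → ℝ} (b : ℝ) (hc : ∀ y ∈ cell m b, w y = w b) :
    E1 m w b = w b := by
  have h2 := pow_pos2 m
  unfold E1
  rw [setIntegral_congr_fun (g := fun _ => w b) (cell_meas m b) (fun y hy => hc y hy),
    setIntegral_const, measureReal_def, cell_vol, ENNReal.toReal_ofReal h2.le, smul_eq_mul,
    ← mul_assoc, inv_mul_cancel₀ h2.ne', one_mul]

theorem E1_const_mul (m : ℤ) {w : ℝ → ℝ} (h : ℝ → ℝ) (b : ℝ) (hc : ∀ y ∈ cell m b, w y = w b) :
    E1 m (fun y => w y * h y) b = w b * E1 m h b := by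
  unfold E1
  rw [setIntegral_congr_fun (g := fun y => w b * h y) (cell_meas m b)
    (fun y hy => by simp only [hc y hy]), integral_const_mul]
  ring

theorem B1_ind (m : ℤ) (b : ℝ) : B1 ((cell m b).indicator fun _ => (1 : ℝ)) := by
  have h2 := pow_pos2 m
  refine ⟨measurable_const.indicator (cell_meas m b), 1 + |b| + (2 : ℝ) ^ m, fun x => ?_,
    fun x hx => ?_⟩
  · by_cases hx : x ∈ cell m b
    · rw [indicator_of_mem hx, abs_one]
      have := abs_nonneg b
      linarith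
    · rw [indicator_of_notMem hx, abs_zero]
      have := abs_nonneg b
      linarith
  · rw [indicator_of_notMem]
    intro hx'
    obtain ⟨h3, h4⟩ := cell_sub m b hx'
    have h5 : |x - b| ≤ (2 : ℝ) ^ m := abs_le.2 ⟨by linarith, by linarith⟩
    have h6 : |x| ≤ |x - b| + |b| := by
      have := abs_add_le (x - b) b
      rwa [sub_add_cancel] at this
    linarith

theorem E1_tower {m m' : ℤ} {h : ℝ → ℝ} (b : ℝ) (hh : B1 h) (hm : m ≤ m') :
    E1 m' (E1 m h) b = E1 m' h b ∧ E1 m (E1 m' h) b = E1 m' h b := by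
  constructor
  · have h1 : ∀ f : ℝ → ℝ, ∫ y in cell m' b, f y =
        ∫ y, f y * (cell m' b).indicator (fun _ => (1 : ℝ)) y := by
      intro f
      rw [← integral_indicator (cell_meas m' b)]
      congr 1
      ext y
      by_cases hy : y ∈ cell m' b
      · rw [indicator_of_mem hy, indicator_of_mem hy, mul_one]
      · rw [indicator_of_notMem hy, indicator_of_notMem hy, mul_zero]
    have h3 : E1 m' (E1 m h) b = ((2 : ℝ) ^ m')⁻¹ * ∫ y in cell m' b, E1 m h y := rfl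
    rw [h3, h1, E1_selfadj m hh (B1_ind m' b)]
    unfold E1
    rw [h1 h]
    congr 1
    congr 1
    ext y
    congr 1
    exact E1_const m (w := (cell m' b).indicator (fun _ => (1 : ℝ))) y (fun z hz => by
      have hz' := cell_mono hm y hz
      by_cases hy : y ∈ cell m' b
      · rw [indicator_of_mem hy, indicator_of_mem]
        rw [← cell_congr hy]
        exact hz'
      · rw [indicator_of_notMem hy, indicator_of_notMem]
        intro hzb
        apply hy
        rw [← cell_congr hzb, cell_congr hz']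
        exact cell_self m' y)
  · exact E1_const m b (fun y hy => E1_congr h (cell_mono hm b hy))

theorem E1_L1 (m : ℤ) {h : ℝ → ℝ} (hh : B1 h) : ∫⁻ y, ‖E1 m h y‖ₑ ≤ ∫⁻ y, ‖h y‖ₑ := by
  have h2 := pow_pos2 m
  have hm := hh.1
  have hmeas : Measurable (fun z : ℝ × ℝ => (ker m).indicator (fun z => ‖h z.2‖ₑ) z) :=
    (hm.comp measurable_snd).enorm.indicator (ker_meas m)
  have h1 : ∀ y, ‖E1 m h y‖ₑ ≤ ENNReal.ofReal ((2 : ℝ) ^ m)⁻¹ *
      ∫⁻ x, (ker m).indicator (fun z => ‖h z.2‖ₑ) (y, x) := by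
    intro y
    unfold E1
    rw [enorm_mul, Real.enorm_of_nonneg (inv_pos.2 h2).le]
    refine mul_le_mul_right ?_ _
    refine le_trans (enorm_integral_le_lintegral_enorm _) (le_of_eq ?_)
    rw [← lintegral_indicator (cell_meas m y)]
    congr 1
    ext x
    by_cases hx : x ∈ cell m y
    · have hx' : (y, x) ∈ ker m := (mem_cell.1 hx).symm
      rw [indicator_of_mem hx, indicator_of_mem hx']
    · have hx' : (y, x) ∉ ker m := fun h' => hx (Eq.symm h')
      rw [indicator_of_notMem hx, indicator_of_notMem hx']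
  calc ∫⁻ y, ‖E1 m h y‖ₑ ≤ ∫⁻ y, ENNReal.ofReal ((2 : ℝ) ^ m)⁻¹ *
        ∫⁻ x, (ker m).indicator (fun z => ‖h z.2‖ₑ) (y, x) := lintegral_mono h1
    _ = ENNReal.ofReal ((2 : ℝ) ^ m)⁻¹ *
        ∫⁻ y, ∫⁻ x, (ker m).indicator (fun z => ‖h z.2‖ₑ) (y, x) := by
        rw [lintegral_const_mul' _ _ ENNReal.ofReal_ne_top]
    _ = ENNReal.ofReal ((2 : ℝ) ^ m)⁻¹ *
        ∫⁻ x, ∫⁻ y, (ker m).indicator (fun z => ‖h z.2‖ₑ) (y, x) := by
        congr 1
        exact lintegral_lintegral_swap (f := fun y x =>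
          (ker m).indicator (fun z => ‖h z.2‖ₑ) (y, x)) hmeas.aemeasurable
    _ = ENNReal.ofReal ((2 : ℝ) ^ m)⁻¹ * ∫⁻ x, ENNReal.ofReal ((2 : ℝ) ^ m) * ‖h x‖ₑ := by
        congr 1
        congr 1
        ext x
        rw [← cell_vol m x, mul_comm, ← setLIntegral_const, ← lintegral_indicator (cell_meas m x)]
        congr 1
    _ = ∫⁻ y, ‖h y‖ₑ := by
        rw [lintegral_const_mul' _ _ ENNReal.ofReal_ne_top, ← mul_assoc,
          ← ENNReal.ofReal_mul (inv_pos.2 h2).le, inv_mul_cancel₀ h2.ne', ENNReal.ofReal_one,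
          one_mul]

theorem hEA : StEA :=
  ⟨fun _ _ _ h => cell_congr h,
    fun m b => ⟨cell_meas m b, cell_self m b, cell_vol m b, cell_sub m b⟩,
    fun _ _ b h => cell_mono h b,
    fun m _ h => E1_B1 m h,
    fun _ h _ _ hc => E1_congr h hc,
    fun m _ _ b hh hw => E1_add m b hh hw,
    fun m h c b => E1_smul m h c b,
    fun m _ _ b hh hw hle => E1_mono m b hh hw hle,
    fun m h b _ => E1_abs m h b,
    fun _ _ _ b _ hK => E1_bound b hK,
    fun _ _ _ b hh hm => E1_tower b hh hm,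
    fun m _ _ hh hw => E1_selfadj m hh hw,
    fun m h _ b _ _ hc => ⟨E1_const m b (hc b), E1_const_mul m h b (hc b)⟩,
    fun m _ hh => E1_L1 m hh⟩

end Pool.Agent.Helper62.LM2
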