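import Pool.Agent.Helper68.LM2.Geo
import Pool.Agent.Helper31.LM.M_SD

/-!
# Project LM2, module TAU: the sequence of a side
-/

set_option autoImplicit false

open MeasureTheory Set Filter Topology
open scoped ENNReal RealInnerProductSpace

namespace Pool.Agent.Helper62.LM2

open Pool.Agent.Helper68.LM2 Pool.Agent.Helper68.LM
open Pool.Agent.Helper31.LM (hSD diff_phi)

theorem side_strictMono {P u v : Pl} {c : ℝ} {φ : ℝ → ℝ} (hS : Side P u v c φ) :
    StrictMonoOn φ (Icc 0 c) := by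
  have hsd := hSD P u v c φ hS
  obtain ⟨-, -, -, hc, -, h0, hcont, hcd, hlim, hd, hmono⟩ := hS
  refine strictMonoOn_of_deriv_pos (convex_Icc 0 c) hcont ?_
  intro x hx
  rw [interior_Icc] at hx
  exact (hsd x hx).2.1

theorem side_le {P u v : Pl} {c : ℝ} {φ : ℝ → ℝ} (hS : Side P u v c φ) {t : ℝ} (ht : t ∈ Ioo 0 c) :
    φ t ≤ t := by
  obtain ⟨-, -, -, hc, -, h0, hcont, hcd, hlim, hd, hmono⟩ := hS
  obtain ⟨x, hx, hx'⟩ := exists_deriv_eq_slope φ ht.1 (hcont.mono (Icc_subset_Icc le_rfl ht.2.le))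
    (fun x hx => (diff_phi hcd ⟨hx.1, hx.2.trans ht.2⟩).differentiableWithinAt)
  have h1 := (hd x ⟨hx.1, hx.2.trans ht.2⟩).1
  rw [h0, sub_zero, sub_zero] at hx'
  have h2 : φ t = deriv φ x * t := by
    rw [hx', div_mul_cancel₀ _ ht.1.ne']
  rw [h2]
  have h3 := (abs_le.1 h1).2
  nlinarith [ht.1]

theorem hTAU : StTAU := by
  constructor
  · intro P u v c φ hS
    have hsm := side_strictMono hS
    have hle := fun {t : ℝ} (ht : t ∈ Ioo 0 c) => side_le hS ht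
    have hsd := hSD P u v c φ hS
    obtain ⟨-, -, -, hc, hc1, h0, hcont, hcd, hlim, hd, hmono⟩ := hS
    have hc2 : c / 2 ∈ Ioo 0 c := ⟨by linarith, by linarith⟩
    obtain ⟨m₀, hm₀⟩ := exists_pow_lt_of_lt_one (hsd _ hc2).1 (show (2⁻¹ : ℝ) < 1 by norm_num)
    have hpow : ∀ n : ℕ, (2⁻¹ : ℝ) ^ (m₀ + n) < φ (c / 2) := fun n =>
      lt_of_le_of_lt (pow_le_pow_of_le_one (by norm_num) (by norm_num) (Nat.le_add_right _ _)) hm₀
    have hex : ∀ n : ℕ, ∃ t ∈ Ioo 0 (c / 2), φ t = (2⁻¹ : ℝ) ^ (m₀ + n) := by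
      intro n
      have h1 := intermediate_value_Ioo (show (0 : ℝ) ≤ c / 2 by linarith)
        (hcont.mono (Icc_subset_Icc le_rfl hc2.2.le))
      exact h1 ⟨by rw [h0]; positivity, hpow n⟩
    choose τ hτ hφτ using hex
    have hτc : ∀ n, τ n ∈ Ioo 0 c := fun n => ⟨(hτ n).1, (hτ n).2.trans hc2.2⟩
    have hτI : ∀ n, τ n ∈ Icc 0 c := fun n => Ioo_subset_Icc_self (hτc n)
    have hanti : StrictAnti τ := by
      refine strictAnti_nat_of_succ_lt fun n => ?_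
      rw [← hsm.lt_iff_lt (hτI _) (hτI _), hφτ, hφτ]
      refine pow_lt_pow_right_of_lt_one₀ (by norm_num) (by norm_num) ?_
      omega
    refine ⟨m₀, τ, ⟨hanti, fun n => (hτ n).1, (hτc 0).2.le.trans hc1, fun n => ?_⟩, (hτc 0).2, hφτ, ?_⟩
    · rw [← hφτ n]
      exact hle (hτc n)
    · rw [Metric.tendsto_atTop]
      intro ε hε
      have he : min ε (c / 2) ∈ Ioo 0 c := ⟨lt_min hε hc2.1, (min_le_right _ _).trans_lt hc2.2⟩
      obtain ⟨N, hN⟩ := exists_pow_lt_of_lt_one (hsd _ he).1 (show (2⁻¹ : ℝ) < 1 by norm_num)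
      refine ⟨N, fun n hn => ?_⟩
      rw [Real.dist_eq, sub_zero, abs_of_pos (hτ n).1]
      refine lt_of_lt_of_le ?_ (min_le_left ε (c / 2))
      rw [← hsm.lt_iff_lt (hτI _) (Ioo_subset_Icc_self he), hφτ]
      exact lt_of_le_of_lt (pow_le_pow_of_le_one (by norm_num) (by norm_num) (by omega)) hN
  · intro P u v c φ m₀ τ hS hL n t ht
    have hsm := side_strictMono hS
    have hsd := hSD P u v c φ hS
    obtain ⟨⟨hanti, hpos, h1, hlow⟩, hτc, hφ, -⟩ := hL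
    have hn : τ n < c := (hanti.antitone (Nat.zero_le n)).trans_lt hτc
    have htc : t ∈ Ioo 0 c := ⟨(hpos _).trans_le ht.1, ht.2.trans_lt hn⟩
    refine ⟨(hsd t htc).1.le, ?_⟩
    rw [← hφ n]
    exact (hsm.le_iff_le (Ioo_subset_Icc_self htc) ⟨(hpos n).le, hn.le⟩).2 ht.2

end Pool.Agent.Helper62.LM2
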